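import Pool.Agent.Lib.LogCh.Fin

/-!
# Cancellation of the Liouville function at `n ^ 2 + 1` over balanced factorizations

`λ` is Liouville's function. For all `0 < α < β` the sums
`S(x) = ∑_{n ≤ x} λ(n ^ 2 + 1) #{d : d ∣ n ^ 2 + 1, α n < d ≤ β n}` satisfy
`(1 / log X) ∑_{x ≤ X} |S(x)| / x ^ 2 → 0`: natural averages cancel at almost all scales. In
particular the logarithmic averages cancel. The total weight is `≥ c x` with `c > 0`.
-/

set_option autoImplicit false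

namespace Pool.Agent.Results.MP_484c84_nt.AlmostAllScales

open Real

theorem result (α β : ℝ) (hα : 0 < α) (hαβ : α < β) :
    Filter.Tendsto (fun X : ℕ => (1 / log X) * ∑ x ∈ Finset.Icc 1 X, (1 / (x : ℝ) ^ 2) *
      |∑ n ∈ Finset.Icc 1 x, ((ArithmeticFunction.liouville (n ^ 2 + 1) : ℤ) : ℝ) *
        (((n ^ 2 + 1).divisors.filter (fun d : ℕ => α * n < d ∧ (d : ℝ) ≤ β * n)).card : ℝ)|)
      Filter.atTop (nhds 0) ∧
    Filter.Tendsto (fun x : ℕ => (1 / log x) * ∑ n ∈ Finset.Icc 1 x,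
      ((ArithmeticFunction.liouville (n ^ 2 + 1) : ℤ) : ℝ) / n *
        (((n ^ 2 + 1).divisors.filter (fun d : ℕ => α * n < d ∧ (d : ℝ) ≤ β * n)).card : ℝ))
      Filter.atTop (nhds 0) ∧
    ∃ c : ℝ, 0 < c ∧ ∃ x0 : ℕ, ∀ x : ℕ, x0 ≤ x → c * x ≤ ∑ n ∈ Finset.Icc 1 x,
      (((n ^ 2 + 1).divisors.filter (fun d : ℕ => α * n < d ∧ (d : ℝ) ≤ β * n)).card : ℝ) :=
  ⟨Pool.Agent.LogCh.almostAllScales α β hα hαβ, Pool.Agent.LogCh.logAveraged α β hα hαβ,
    Pool.Agent.LogCh.mass_lower α β hα hαβ⟩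

end Pool.Agent.Results.MP_484c84_nt.AlmostAllScales
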