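import Pool.Agent.Lib.NSqC.FinC

/-!
# All three classes modulo 3 at `n ^ 2 + 1` in a positive proportion

Count every `n ≤ x` with the number of its balanced factorizations `n ^ 2 + 1 = d d'`, `d, d' ≤ x`.
Let `h` be completely additive with values in `Z/3` and `h p ≠ 0` for one fixed prime
`p ≡ 1 (mod 4)`.  Then `h (n ^ 2 + 1)` takes every value of `Z/3` for a positive proportion of the
total count, and for at least `x / (log x) ^ (7 / 10)` of the `n ≤ x`.  For example `h = Ω`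
modulo 3, the number of prime factors with multiplicity.
-/

set_option autoImplicit false

namespace Pool.Agent.Results.MP_484c84_nt.PositiveProportionMod3

theorem result (p : ℕ) (hp : p.Prime) (hp4 : p % 4 = 1) :
    ∃ c C : ℝ, 0 < c ∧ ∃ x0 : ℕ, ∀ h : ℕ → ZMod 3,
      (∀ a b, 1 ≤ a → 1 ≤ b → h (a * b) = h a + h b) → h p ≠ 0 →
      ∀ x : ℕ, x0 ≤ x → ∀ e : ZMod 3,
        c * x ≤ (((Finset.Icc 1 x ×ˢ Finset.Icc 1 x).filter
            (fun r : ℕ × ℕ => r.2 ∣ r.1 ^ 2 + 1 ∧ (r.1 ^ 2 + 1) / r.2 ≤ x ∧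
              h (r.1 ^ 2 + 1) = e)).card : ℝ) ∧
        (((Finset.Icc 1 x ×ˢ Finset.Icc 1 x).filter
            (fun r : ℕ × ℕ => r.2 ∣ r.1 ^ 2 + 1 ∧ (r.1 ^ 2 + 1) / r.2 ≤ x)).card : ℝ) ≤ C * x ∧
        (x : ℝ) / (Real.log x) ^ ((7 : ℝ) / 10) ≤
          (((Finset.Icc 1 x).filter (fun n => h (n ^ 2 + 1) = e)).card : ℝ) := by
  classical
  obtain ⟨c, C, hc, x1, h1⟩ := Pool.Agent.NSqC.mainC p hp hp4
  refine ⟨c, C, hc, x1, fun h hh hhp x hx e => ?_⟩
  have h2 := h1 h hh hhp x hx e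
  convert h2

end Pool.Agent.Results.MP_484c84_nt.PositiveProportionMod3
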