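import Mathlib
import Pool.Agent.Lib.H13Mod3.Main

/-!
For every completely additive `h : ℕ → ℤ/3` with `h p ≠ 0` for some prime `p ≡ 1 mod 4`, every
residue class mod 3 is the value of `h (n ^ 2 + 1)` for at least `N / (p log N) ^ 512` of the
integers `1 ≤ n ≤ N`.  In particular this holds for `h n = Ω(n) mod 3`.
-/

namespace Pool.Agent.Results.MP_484c84_nt.PrimeFactorsMod3

open Pool.Agent.Lib.H13Mod3

theorem result (h : ℕ → ZMod 3)
    (hmul : ∀ a b : ℕ, a ≠ 0 → b ≠ 0 → h (a * b) = h a + h b)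
    (p : ℕ) (hp : p.Prime) (hp1 : p % 4 = 1) (hhp : h p ≠ 0)
    (c : ZMod 3) (N : ℕ) (hN : p ^ 512 ≤ N) :
    (N : ℝ) / ((p : ℝ) * Real.log N) ^ 512 ≤
      (((Finset.Icc 1 N).filter (fun n => h (n ^ 2 + 1) = c)).card : ℝ) := by
  classical
  have hp5 : 5 ≤ p := by
    have := hp.two_le
    rcases Nat.lt_or_ge p 5 with h5 | h5
    · interval_cases p <;> omega
    · exact h5
  have hpp := hp.pos
  have hp5r : (5 : ℝ) ≤ p := by exact_mod_cast hp5
  -- N is large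
  have hN14 : 12 * p ^ 14 ≤ N := by
    calc 12 * p ^ 14 ≤ p ^ 2 * p ^ 14 := by
          apply Nat.mul_le_mul_right
          nlinarith
      _ = p ^ 16 := by ring
      _ ≤ p ^ 512 := Nat.pow_le_pow_right hpp (by norm_num)
      _ ≤ N := hN
  set K := Nat.sqrt (N / (12 * p ^ 14)) with hK
  have hden : 0 < 12 * p ^ 14 := by positivity
  have hK1 : 1 ≤ K := by
    rw [hK]
    exact Nat.sqrt_pos.mpr (Nat.div_pos hN14 hden)
  have hKN : 12 * p ^ 14 * K ^ 2 ≤ N := by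
    have h1 : K ^ 2 ≤ N / (12 * p ^ 14) := by rw [hK]; exact Nat.sqrt_le' _
    calc 12 * p ^ 14 * K ^ 2 ≤ 12 * p ^ 14 * (N / (12 * p ^ 14)) := Nat.mul_le_mul_left _ h1
      _ ≤ N := Nat.mul_div_le _ _
  have hNK : N < 48 * p ^ 14 * K ^ 2 := by
    have h1 : N / (12 * p ^ 14) < (K + 1) ^ 2 := by rw [hK]; exact Nat.lt_succ_sqrt' _
    have h2 : N < (K + 1) ^ 2 * (12 * p ^ 14) := (Nat.div_lt_iff_lt_mul hden).mp h1
    have h3 : (K + 1) ^ 2 ≤ 4 * K ^ 2 := by nlinarith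
    calc N < (K + 1) ^ 2 * (12 * p ^ 14) := h2
      _ ≤ (4 * K ^ 2) * (12 * p ^ 14) := Nat.mul_le_mul_right _ h3
      _ = 48 * p ^ 14 * K ^ 2 := by ring
  have hmain := main_K hmul hp hp1 hhp c hK1
  obtain ⟨X, hX⟩ : ∃ X, X = 12 * p ^ 14 * K ^ 2 := ⟨_, rfl⟩
  rw [← hX] at hmain hKN
  have hX1 : 1 ≤ X := by rw [hX]; exact Nat.mul_pos hden (by positivity)
  have hXr : (X : ℝ) = 12 * (p : ℝ) ^ 14 * (K : ℝ) ^ 2 := by rw [hX]; push_cast; ring
  have hXNr : (X : ℝ) ≤ N := by exact_mod_cast hKN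
  have hXpos : (0 : ℝ) < X := by exact_mod_cast hX1
  have hcard : ((((Finset.Icc 1 X).filter (fun n => h (n ^ 2 + 1) = c)).card : ℕ) : ℝ) ≤
      ((((Finset.Icc 1 N).filter (fun n => h (n ^ 2 + 1) = c)).card : ℕ) : ℝ) := by
    exact_mod_cast Finset.card_le_card
      (Finset.filter_subset_filter _ (Finset.Icc_subset_Icc_right hKN))
  generalize ((((Finset.Icc 1 X).filter (fun n => h (n ^ 2 + 1) = c)).card : ℕ) : ℝ) = T at *
  have hT'0 : (0 : ℝ) ≤ ((((Finset.Icc 1 N).filter (fun n => h (n ^ 2 + 1) = c)).card : ℕ) : ℝ) :=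
    Nat.cast_nonneg _
  generalize ((((Finset.Icc 1 N).filter (fun n => h (n ^ 2 + 1) = c)).card : ℕ) : ℝ) = T' at *
  -- logarithms
  have hN3 : (5 : ℝ) ≤ N := by
    have : p ≤ N := (Nat.le_self_pow (by norm_num) p).trans hN
    have h5 : (p : ℝ) ≤ N := by exact_mod_cast this
    linarith
  have hlog1 : 1 ≤ Real.log N := by
    rw [Real.le_log_iff_exp_le (by linarith)]
    have := Real.exp_one_lt_d9
    linarith
  have hlogX : Real.log X ≤ Real.log N := Real.log_le_log hXpos hXNr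
  have hlogX0 : 0 ≤ Real.log X := Real.log_natCast_nonneg X
  have hl2 : 1 + Real.log X ≤ 2 * Real.log N := by linarith
  have hKpos : (0 : ℝ) < (K : ℝ) ^ 2 := by
    have : (0 : ℝ) < K := by exact_mod_cast hK1
    positivity
  have hp0r : (0 : ℝ) < p := by linarith
  -- main inequality divided by K^2
  have hT0 : 0 ≤ T' := hT'0
  have hpow : (1 + Real.log X) ^ 512 ≤ (2 * Real.log N) ^ 512 :=
    pow_le_pow_left₀ (by linarith) hl2 512
  have hpowN0 : (0 : ℝ) ≤ (1 + Real.log X) ^ 512 := pow_nonneg (by linarith) _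
  generalize (1 + Real.log X) ^ 512 = L at hmain hpow hpowN0
  have h6 : (K : ℝ) ^ 2 ≤ 78643200 * (p : ℝ) ^ 18 * (T' * (2 * Real.log N) ^ 512) := by
    have h7 : (K : ℝ) ^ 2 * (K : ℝ) ^ 2 ≤
        (78643200 * (p : ℝ) ^ 18 * (T' * (2 * Real.log N) ^ 512)) * (K : ℝ) ^ 2 := by
      calc (K : ℝ) ^ 2 * (K : ℝ) ^ 2 = (K : ℝ) ^ 4 := by ring
        _ ≤ (160 * (p : ℝ) ^ 2) ^ 2 * (T * (256 * (X : ℝ) * L)) := hmain
        _ = (25600 * 256 * (p : ℝ) ^ 4 * (X : ℝ)) * (T * L) := by ring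
        _ ≤ (25600 * 256 * (p : ℝ) ^ 4 * (X : ℝ)) * (T' * (2 * Real.log N) ^ 512) := by
            apply mul_le_mul_of_nonneg_left _ (by positivity)
            exact mul_le_mul hcard hpow hpowN0 hT0
        _ = _ := by rw [hXr]; ring
    exact le_of_mul_le_mul_right h7 hKpos
  have hNr : (N : ℝ) ≤ 48 * (p : ℝ) ^ 14 * (K : ℝ) ^ 2 := by exact_mod_cast hNK.le
  have h8 : (N : ℝ) ≤ 3774873600 * (p : ℝ) ^ 32 * (T' * (2 * Real.log N) ^ 512) := by
    calc (N : ℝ) ≤ 48 * (p : ℝ) ^ 14 * (K : ℝ) ^ 2 := hNr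
      _ ≤ 48 * (p : ℝ) ^ 14 * (78643200 * (p : ℝ) ^ 18 * (T' * (2 * Real.log N) ^ 512)) :=
          mul_le_mul_of_nonneg_left h6 (by positivity)
      _ = _ := by ring
  have hc1 : (3774873600 : ℝ) ≤ (p : ℝ) ^ 14 := by
    calc (3774873600 : ℝ) ≤ 5 ^ 14 := by norm_num
      _ ≤ (p : ℝ) ^ 14 := pow_le_pow_left₀ (by norm_num) hp5r 14
  have hc2 : (2 : ℝ) ^ 512 ≤ (p : ℝ) ^ 256 := by
    calc (2 : ℝ) ^ 512 = (4 : ℝ) ^ 256 := by rw [show (4 : ℝ) = 2 ^ 2 by norm_num, ← pow_mul]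
      _ ≤ (p : ℝ) ^ 256 := pow_le_pow_left₀ (by norm_num) (by linarith) 256
  have hlogpow : (0 : ℝ) ≤ (Real.log N) ^ 512 := pow_nonneg (by linarith) _
  have h9 : (N : ℝ) ≤ ((p : ℝ) * Real.log N) ^ 512 * T' := by
    calc (N : ℝ) ≤ 3774873600 * (p : ℝ) ^ 32 * (T' * (2 * Real.log N) ^ 512) := h8
      _ = 3774873600 * (p : ℝ) ^ 32 * (2 : ℝ) ^ 512 * ((Real.log N) ^ 512 * T') := by
          rw [mul_pow]; ring
      _ ≤ (p : ℝ) ^ 14 * (p : ℝ) ^ 32 * (p : ℝ) ^ 256 * ((Real.log N) ^ 512 * T') := by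
          apply mul_le_mul_of_nonneg_right _ (mul_nonneg hlogpow hT0)
          apply mul_le_mul _ hc2 (by positivity) (by positivity)
          exact mul_le_mul_of_nonneg_right hc1 (by positivity)
      _ = (p : ℝ) ^ 302 * ((Real.log N) ^ 512 * T') := by
          rw [← pow_add, ← pow_add]
      _ ≤ (p : ℝ) ^ 512 * ((Real.log N) ^ 512 * T') := by
          apply mul_le_mul_of_nonneg_right _ (mul_nonneg hlogpow hT0)
          exact pow_le_pow_right₀ (by linarith) (by norm_num)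
      _ = ((p : ℝ) * Real.log N) ^ 512 * T' := by rw [mul_pow]; ring
  rw [div_le_iff₀ (pow_pos (mul_pos hp0r (by linarith)) _)]
  rw [mul_comm]
  exact h9

end Pool.Agent.Results.MP_484c84_nt.PrimeFactorsMod3
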