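import Pool.Agent.Lib.MP484c84AP.Final

/-!
# The conjectured asymptotic is not uniform in arithmetic progressions
-/

namespace Pool.Agent.Results.MP_484c84_nt.ProgressionIrregularity

/-- `primeCount y q a` is the number of integers `1 ≤ n ≤ y` with `n ≡ a (mod q)` such that
`n ^ 2 + 1` is prime. -/
noncomputable def primeCount (y : ℝ) (q a : ℕ) : ℕ :=
  ((Finset.Ioc 0 ⌊y⌋₊).filter fun n => n ≡ a [MOD q] ∧ (n ^ 2 + 1).Prime).card

/-- `rootCount p` is the number of residues `x` modulo `p` with `x ^ 2 + 1` divisible by `p`. -/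
def rootCount (p : ℕ) : ℕ := ((Finset.range p).filter fun x => p ∣ x ^ 2 + 1).card

/-- the expected main term for the residue class `a` modulo `q`, `gcd (a ^ 2 + 1, q) = 1`, when
`c * y / log y` is the expected main term for `q = 1` -/
noncomputable def expected (c y : ℝ) (q : ℕ) : ℝ :=
  c * (∏ p ∈ q.primeFactors, (1 - (rootCount p : ℝ) / p)⁻¹) * y / (q * Real.log y)

theorem result (A : ℝ) (hA : 0 < A) : ∃ B : ℝ, A < B ∧ ∃ δ : ℝ, 0 < δ ∧
    ∀ c : ℝ, 0 < c → ∀ X : ℝ, ∃ y : ℝ, X ≤ y ∧ ∃ q a : ℕ, 1 ≤ q ∧ Nat.Coprime (a ^ 2 + 1) q ∧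
      ((q : ℝ) ≤ Real.log y ^ B ∨ y / Real.log y ^ B ≤ q) ∧ (q : ℝ) ≤ y / Real.log y ^ A ∧
      δ * expected c y q ≤ |(primeCount y q a : ℝ) - expected c y q| :=
  Pool.Agent.MP484c84AP.main hA

end Pool.Agent.Results.MP_484c84_nt.ProgressionIrregularity
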